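import Mathlib

/-!
# MP_7b40b5_an: the reciprocal polynomial need not divide

For the unimodular irreducible Pisot substitution `a ↦ aba, b ↦ c, c ↦ ab` and its reversal
`a ↦ aba, b ↦ c, c ↦ ba` the balanced pair algorithm terminates with seven balanced pairs, and the
reciprocal polynomial `q` does not divide the characteristic polynomial of `M_Σ`.
-/

set_option autoImplicit false

namespace Pool.Agent.Results.MP_7b40b5_an.ReciprocalDoesNotDivide

open Polynomial

/-- a substitution on the letters `0, ..., k - 1` -/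
abbrev Subst (k : ℕ) := Fin k → List (Fin k)

variable {k : ℕ}

/-- the image of a word -/
def apply (σ : Subst k) (w : List (Fin k)) : List (Fin k) := w.flatMap σ

/-- the vector `l(w)` of the numbers of occurrences of the letters -/
def counts (w : List (Fin k)) : Fin k → ℕ := fun i => w.count i

/-- the incidence matrix -/
def incidence (σ : Subst k) : Matrix (Fin k) (Fin k) ℤ := fun i j => ((σ j).count i : ℤ)

/-- the reversal -/
def reversal (σ : Subst k) : Subst k := fun i => (σ i).reverse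

/-- the polynomial `p` -/
noncomputable def p (σ : Subst k) : ℤ[X] := (incidence σ).charpoly

/-- irreducible Pisot: `p` is irreducible over `ℚ` and has a real root `l > 1` such that all other
complex roots have modulus less than `1` (so that `l` is the Perron-Frobenius eigenvalue) -/
def IsIrreduciblePisot (σ : Subst k) : Prop :=
  Irreducible ((p σ).map (Int.castRingHom ℚ)) ∧
    ∃ l : ℝ, 1 < l ∧ aeval (l : ℂ) (p σ) = 0 ∧ ∀ z : ℂ, aeval z (p σ) = 0 → z ≠ l → ‖z‖ < 1

/-- the prefix of length `n` -/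
def pre (u : ℕ → Fin k) (n : ℕ) : List (Fin k) := (List.range n).map u

/-- `u` is a one-sided fixed point of `σ` -/
def IsFixedPoint (σ : Subst k) (u : ℕ → Fin k) : Prop :=
  ∀ n, apply σ (pre u n) = pre u (apply σ (pre u n)).length

/-- minimal balanced pairs -/
def IsMinimal (P : List (Fin k) × List (Fin k)) : Prop :=
  P.1 ≠ [] ∧ P.1.length = P.2.length ∧ counts P.1 = counts P.2 ∧
    ∀ m < P.1.length, 1 ≤ m → counts (P.1.take m) ≠ counts (P.2.take m)

instance (P : List (Fin k) × List (Fin k)) : Decidable (IsMinimal P) := by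
  unfold IsMinimal
  infer_instance

/-- `L` is the splitting of the pair `(U, V)` into minimal balanced pairs -/
def IsSplitting (L : List (List (Fin k) × List (Fin k))) (U V : List (Fin k)) : Prop :=
  (∀ P ∈ L, IsMinimal P) ∧ (L.map Prod.fst).flatten = U ∧ (L.map Prod.snd).flatten = V

/-- the set `𝓑`: the minimal balanced pairs reachable from `P₀` -/
inductive Reach (σ : Subst k) (P₀ : List (Fin k) × List (Fin k)) :
    List (Fin k) × List (Fin k) → Prop
  | base : Reach σ P₀ P₀
  | step (P Q : List (Fin k) × List (Fin k)) (L : List (List (Fin k) × List (Fin k))) :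
      Reach σ P₀ P → IsSplitting L (apply σ P.1) (apply (reversal σ) P.2) → Q ∈ L → Reach σ P₀ Q

/-- The balanced pair algorithm for `σ` and its reversal, started with the fixed points `u`, `v`,
stops with the set `𝓑` enumerated by `b`, and `M` is the incidence matrix of `Σ`. -/
def IsSigma (σ : Subst k) (u v : ℕ → Fin k) {m : ℕ} (b : Fin m → List (Fin k) × List (Fin k))
    (M : Matrix (Fin m) (Fin m) ℤ) : Prop :=
  IsFixedPoint σ u ∧ IsFixedPoint (reversal σ) v ∧
  ∃ n, IsLeast {n | 1 ≤ n ∧ counts (pre u n) = counts (pre v n)} n ∧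
    Function.Injective b ∧ Set.range b = {P | Reach σ (pre u n, pre v n) P} ∧
    ∀ j, ∃ L, IsSplitting L (apply σ (b j).1) (apply (reversal σ) (b j).2) ∧
      ∀ i, M i j = (L.count (b i) : ℤ)

/-! ### Uniqueness of the splitting -/

theorem splitting_unique (L L' : List (List (Fin k) × List (Fin k))) (U V : List (Fin k))
    (h : IsSplitting L U V) (h' : IsSplitting L' U V) : L = L' := by
  induction L generalizing L' U V with
  | nil =>
    obtain ⟨-, h1, -⟩ := h
    rcases L' with _ | ⟨P, L'⟩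
    · rfl
    · exfalso
      obtain ⟨h2, h3, -⟩ := h'
      rw [← h1] at h3
      simp only [List.map_cons, List.flatten_cons, List.map_nil, List.flatten_nil,
        List.append_eq_nil_iff] at h3
      exact (h2 P List.mem_cons_self).1 h3.1
  | cons P L ih =>
    rcases L' with _ | ⟨Q, L'⟩
    · exfalso
      obtain ⟨h2, h3, -⟩ := h
      obtain ⟨-, h1, -⟩ := h'
      rw [← h1] at h3
      simp only [List.map_cons, List.flatten_cons, List.map_nil, List.flatten_nil,
        List.append_eq_nil_iff] at h3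
      exact (h2 P List.mem_cons_self).1 h3.1
    · obtain ⟨h1, h2, h3⟩ := h
      obtain ⟨h1', h2', h3'⟩ := h'
      simp only [List.map_cons, List.flatten_cons] at h2 h3 h2' h3'
      obtain ⟨a1, a2, a3, a4⟩ := h1 P List.mem_cons_self
      obtain ⟨c1, c2, c3, c4⟩ := h1' Q List.mem_cons_self
      have hP : 1 ≤ P.1.length := List.length_pos_iff.2 a1
      have hQ : 1 ≤ Q.1.length := List.length_pos_iff.2 c1
      have key : ∀ (P Q : List (Fin k) × List (Fin k)) (x y x' y' : List (Fin k)),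
          P.1 ++ x = Q.1 ++ x' → P.2 ++ y = Q.2 ++ y' → P.1.length = P.2.length →
          Q.1.length = Q.2.length → counts P.1 = counts P.2 → 1 ≤ P.1.length →
          (∀ m < Q.1.length, 1 ≤ m → counts (Q.1.take m) ≠ counts (Q.2.take m)) →
          ¬ P.1.length < Q.1.length := by
        intro P Q x y x' y' e1 e2 e3 e4 e5 e6 e7 e8
        have f1 : Q.1.take P.1.length = P.1 := by
          have := congrArg (List.take P.1.length) e1
          rw [List.take_left, List.take_append_of_le_length e8.le] at this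
          exact this.symm
        have f2 : Q.2.take P.1.length = P.2 := by
          have := congrArg (List.take P.1.length) e2
          rw [e3, List.take_left, List.take_append_of_le_length (by omega)] at this
          rw [e3]
          exact this.symm
        apply e7 _ e8 e6
        rw [f1, f2]
        exact e5
      have e1 := h2.trans h2'.symm
      have e2 := h3.trans h3'.symm
      have l1 := key P Q _ _ _ _ e1 e2 a2 c2 a3 hP c4
      have l2 := key Q P _ _ _ _ e1.symm e2.symm c2 a2 c3 hQ a4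
      have l3 : P.1.length = Q.1.length := by omega
      have l4 : P.2.length = Q.2.length := by omega
      have g1 := List.append_inj e1 l3
      have g2 := List.append_inj e2 l4
      have hPQ : P = Q := Prod.ext g1.1 g2.1
      rw [hPQ, ih L' _ _ ⟨fun R hR => h1 R (List.mem_cons_of_mem _ hR), rfl, rfl⟩
        ⟨fun R hR => h1' R (List.mem_cons_of_mem _ hR), g1.2.symm, g2.2.symm⟩]

/-! ### Fixed points -/

lemma apply_append (σ : Subst k) (x y : List (Fin k)) : apply σ (x ++ y) = apply σ x ++ apply σ y :=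
  List.flatMap_append

lemma exists_fixed (σ : Subst k) (hσ : ∀ i, σ i ≠ []) (a : Fin k) (w : List (Fin k)) (hw : w ≠ [])
    (ha : σ a = a :: w) : ∃ u : ℕ → Fin k, IsFixedPoint σ u ∧ u 0 = a := by
  obtain ⟨W, hW0, hWs⟩ : ∃ W : ℕ → List (Fin k), W 0 = [a] ∧ ∀ n, W (n + 1) = apply σ (W n) :=
    ⟨fun n => (apply σ)^[n] [a], rfl, fun n => Function.iterate_succ_apply' _ _ _⟩
  have hne : ∀ x : List (Fin k), x ≠ [] → apply σ x ≠ [] := by
    intro x hx
    rcases x with _ | ⟨c, x⟩
    · exact absurd rfl hx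
    · unfold apply
      rw [List.flatMap_cons]
      intro h
      exact hσ c (List.append_eq_nil_iff.1 h).1
  have hstep : ∀ n, ∃ t, t ≠ [] ∧ W (n + 1) = W n ++ t := by
    intro n
    induction n with
    | zero =>
      refine ⟨w, hw, ?_⟩
      rw [hWs, hW0]
      simp [apply, ha]
    | succ n ih =>
      obtain ⟨t, ht, h1⟩ := ih
      refine ⟨apply σ t, hne t ht, ?_⟩
      rw [hWs (n + 1), h1, apply_append, ← hWs n, h1]
  have hlen : ∀ n, n + 1 ≤ (W n).length := by
    intro n
    induction n with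
    | zero => rw [hW0]; simp
    | succ n ih =>
      obtain ⟨t, ht, h1⟩ := hstep n
      rw [h1, List.length_append]
      have := List.length_pos_iff.2 ht
      omega
  have hpre : ∀ n d, ∃ t, W (n + d) = W n ++ t := by
    intro n d
    induction d with
    | zero => exact ⟨[], by simp⟩
    | succ d ih =>
      obtain ⟨t, h1⟩ := ih
      obtain ⟨t', -, h2⟩ := hstep (n + d)
      exact ⟨t ++ t', by rw [← add_assoc, h2, h1, List.append_assoc]⟩
  obtain ⟨u, hu⟩ : ∃ u : ℕ → Fin k, ∀ n, u n = (W n).getD n a := ⟨_, fun _ => rfl⟩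
  have huW : ∀ N n, n < (W N).length → u n = (W N).getD n a := by
    intro N n hn
    rw [hu]
    rcases le_total n N with h | h
    · obtain ⟨t, ht⟩ := hpre n (N - n)
      rw [show n + (N - n) = N by omega] at ht
      rw [ht, List.getD_append _ _ _ _ (by have := hlen n; omega)]
    · obtain ⟨t, ht⟩ := hpre N (n - N)
      rw [show N + (n - N) = n by omega] at ht
      rw [ht, List.getD_append _ _ _ _ hn]
  have hpW : ∀ N n, n ≤ (W N).length → pre u n = (W N).take n := by
    intro N n hn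
    apply List.ext_getElem
    · simp [pre, hn]
    · intro i h1 h2
      have hi : i < n := by simpa [pre] using h1
      rw [List.getElem_take]
      simp only [pre, List.getElem_map, List.getElem_range]
      rw [huW N i (by omega), List.getD_eq_getElem _ _ (by omega)]
  refine ⟨u, ?_, ?_⟩
  · intro n
    obtain ⟨t, ht⟩ : ∃ t, W n = pre u n ++ t := by
      refine ⟨(W n).drop n, ?_⟩
      rw [hpW n n (by have := hlen n; omega), List.take_append_drop]
    have h1 : W (n + 1) = apply σ (pre u n) ++ apply σ t := by rw [hWs, ht, apply_append]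
    have h2 := hpW (n + 1) (apply σ (pre u n)).length (by rw [h1, List.length_append]; omega)
    rw [h1, List.take_left] at h2
    exact h2.symm
  · rw [hu, hW0]
    rfl

/-! ### The example -/

/-- `a ↦ aba, b ↦ c, c ↦ ab` -/
def s3 : Subst 3 := ![[0, 1, 0], [2], [0, 1]]

/-- the seven minimal balanced pairs -/
def b7 : Fin 7 → List (Fin 3) × List (Fin 3) :=
  ![([0], [0]), ([1], [1]), ([2], [2]), ([0, 1], [1, 0]), ([0, 1, 0, 2], [2, 0, 1, 0]),
    ([2, 0, 1], [1, 0, 2]), ([0, 1, 0, 1, 0, 2], [2, 0, 1, 0, 1, 0])]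

/-- the substitution `Σ` -/
def im7 : Fin 7 → List (Fin 7) :=
  ![[0, 1, 0], [2], [3], [4], [3, 0, 5, 0, 3], [6], [3, 0, 5, 0, 5, 0, 3]]

/-- its incidence matrix -/
def M7 : Matrix (Fin 7) (Fin 7) ℤ :=
  !![2, 0, 0, 0, 2, 0, 3; 1, 0, 0, 0, 0, 0, 0; 0, 1, 0, 0, 0, 0, 0; 0, 0, 1, 0, 2, 0, 2;
    0, 0, 0, 1, 0, 0, 0; 0, 0, 0, 0, 1, 0, 2; 0, 0, 0, 0, 0, 1, 0]

/-- twice the inverse of `q(M)` -/
def N7 : Matrix (Fin 7) (Fin 7) ℤ :=
  !![1, -2, 0, 1, 3, 1, 4; 2, -3, -2, 0, 1, -1, 1; 5, -8, -3, -2, 0, -5, -1;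
    -3, 5, 2, 1, 0, 4, 3; -7, 11, 5, 2, 1, 10, 4; 2, -3, -1, -1, 0, -3, -2;
    4, -6, -3, -1, -1, -6, -3]

lemma p_eq : p s3 = X ^ 3 - 2 * X ^ 2 - X + 1 := by
  have h : incidence s3 = !![2, 0, 1; 1, 0, 1; 0, 1, 0] := by
    ext i j
    fin_cases i <;> fin_cases j <;> rfl
  rw [p, h, Matrix.charpoly, Matrix.charmatrix, Matrix.det_fin_three]
  simp
  ring

lemma q_eq : (p s3).reverse = X ^ 3 - X ^ 2 - 2 * X + 1 := by
  rw [p_eq]
  have hd : (X ^ 3 - 2 * X ^ 2 - X + 1 : ℤ[X]).natDegree = 3 := by compute_degree!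
  rw [reverse, hd]
  have h : ∀ (n : ℕ) (c : ℤ), reflect 3 (C c * X ^ n) = C c * X ^ revAt 3 n := by
    intro n c
    rw [reflect_C_mul_X_pow]
  have e : (X ^ 3 - 2 * X ^ 2 - X + 1 : ℤ[X]) =
      C 1 * X ^ 3 + C (-2) * X ^ 2 + C (-1) * X ^ 1 + C 1 * X ^ 0 := by
    simp only [map_neg, map_one, map_ofNat]
    ring
  rw [e, reflect_add, reflect_add, reflect_add, h, h, h, h]
  have r0 : revAt 3 0 = 3 := rfl
  have r1 : revAt 3 1 = 2 := rfl
  have r2 : revAt 3 2 = 1 := rfl
  have r3 : revAt 3 3 = 0 := rfl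
  rw [r0, r1, r2, r3]
  simp only [map_neg, map_one, map_ofNat]
  ring

lemma irr : Irreducible ((p s3).map (Int.castRingHom ℚ)) := by
  have hm : (p s3).Monic := by
    rw [p_eq]
    monicity!
  have h1 : Irreducible (p s3) := by
    apply hm.irreducible_of_irreducible_map (Int.castRingHom (ZMod 2))
    have hm2 : ((p s3).map (Int.castRingHom (ZMod 2))).Monic := hm.map _
    have e : (p s3).map (Int.castRingHom (ZMod 2)) = X ^ 3 - 2 * X ^ 2 - X + 1 := by
      rw [p_eq]
      simp
    have hd : ((p s3).map (Int.castRingHom (ZMod 2))).natDegree = 3 := by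
      rw [e]
      compute_degree!
    rw [hm2.irreducible_iff_roots_eq_zero_of_degree_le_three (by rw [hd]; norm_num)
      (by rw [hd])]
    apply Multiset.eq_zero_of_forall_notMem
    intro a ha
    rw [mem_roots hm2.ne_zero, IsRoot.def, e] at ha
    simp only [eval_add, eval_sub, eval_pow, eval_X, eval_one, eval_mul, eval_ofNat] at ha
    revert ha
    revert a
    decide
  exact (hm.irreducible_iff_irreducible_map_fraction_map (K := ℚ)).1 h1

/-- the three real roots of `p` -/
lemma roots_p : ∃ l r t : ℝ, 1 < l ∧ |r| < 1 ∧ |t| < 1 ∧ l ^ 3 - 2 * l ^ 2 - l + 1 = 0 ∧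
    ∀ z : ℂ, z ^ 3 - 2 * z ^ 2 - z + 1 = (z - l) * (z - r) * (z - t) := by
  have hc : ∀ a b : ℝ, ContinuousOn (fun x : ℝ => x ^ 3 - 2 * x ^ 2 - x + 1) (Set.Icc a b) :=
    fun a b => by fun_prop
  obtain ⟨l, hl, hl0⟩ := intermediate_value_Icc (by norm_num : (2 : ℝ) ≤ 3) (hc 2 3)
    (show (0 : ℝ) ∈ _ by constructor <;> norm_num)
  obtain ⟨t, ht, ht0⟩ := intermediate_value_Icc (by norm_num : (-1 : ℝ) ≤ 0) (hc (-1) 0)
    (show (0 : ℝ) ∈ _ by constructor <;> norm_num)
  obtain ⟨r, hr, hr0⟩ := intermediate_value_Icc' (by norm_num : (0 : ℝ) ≤ 1) (hc 0 1)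
    (show (0 : ℝ) ∈ _ by constructor <;> norm_num)
  dsimp only at hl0 ht0 hr0
  have t1 : t ≠ -1 := by rintro rfl; norm_num at ht0
  have t0 : t ≠ 0 := by rintro rfl; norm_num at ht0
  have r1 : r ≠ 1 := by rintro rfl; norm_num at hr0
  have r0 : r ≠ 0 := by rintro rfl; norm_num at hr0
  have t1' : -1 < t := lt_of_le_of_ne ht.1 t1.symm
  have t0' : t < 0 := lt_of_le_of_ne ht.2 t0
  have r1' : r < 1 := lt_of_le_of_ne hr.2 r1
  have r0' : 0 < r := lt_of_le_of_ne hr.1 r0.symm
  have l1 : 1 < l := by linarith [hl.1]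
  have d1 : l ^ 2 + l * r + r ^ 2 - 2 * (l + r) - 1 = 0 := by
    have : (l - r) * (l ^ 2 + l * r + r ^ 2 - 2 * (l + r) - 1) = 0 := by
      linear_combination hl0 - hr0
    rcases mul_eq_zero.1 this with h | h
    · linarith
    · exact h
  have d2 : l ^ 2 + l * t + t ^ 2 - 2 * (l + t) - 1 = 0 := by
    have : (l - t) * (l ^ 2 + l * t + t ^ 2 - 2 * (l + t) - 1) = 0 := by
      linear_combination hl0 - ht0
    rcases mul_eq_zero.1 this with h | h
    · linarith
    · exact h
  have d3 : l + r + t - 2 = 0 := by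
    have : (r - t) * (l + r + t - 2) = 0 := by linear_combination d1 - d2
    rcases mul_eq_zero.1 this with h | h
    · linarith
    · exact h
  have d4 : l * r + l * t + r * t + 1 = 0 := by
    linear_combination (l + r) * d3 - d1
  have d5 : l * r * t + 1 = 0 := by
    linear_combination hl0 - l ^ 2 * d3 + l * d4
  refine ⟨l, r, t, l1, abs_lt.2 ⟨by linarith, r1'⟩, abs_lt.2 ⟨t1', by linarith⟩, hl0, fun z => ?_⟩
  have e3 : (l : ℂ) + r + t - 2 = 0 := by exact_mod_cast congrArg (fun x : ℝ => (x : ℂ)) d3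
  have e4 : (l : ℂ) * r + l * t + r * t + 1 = 0 := by
    exact_mod_cast congrArg (fun x : ℝ => (x : ℂ)) d4
  have e5 : (l : ℂ) * r * t + 1 = 0 := by exact_mod_cast congrArg (fun x : ℝ => (x : ℂ)) d5
  linear_combination z ^ 2 * e3 - z * e4 + e5

lemma pisot : IsIrreduciblePisot s3 := by
  obtain ⟨l, r, t, hl, hr, ht, hl0, hz⟩ := roots_p
  have ha : ∀ z : ℂ, aeval z (p s3) = z ^ 3 - 2 * z ^ 2 - z + 1 := by
    intro z
    rw [p_eq]
    have h2 : (aeval z) (2 : ℤ[X]) = 2 := by
      rw [show (2 : ℤ[X]) = C 2 from rfl, aeval_C]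
      norm_num
    simp [h2]
  refine ⟨irr, l, hl, ?_, fun z h0 h1 => ?_⟩
  · rw [ha, hz]
    simp
  · rw [ha, hz, mul_eq_zero, mul_eq_zero] at h0
    rcases h0 with (h0 | h0) | h0
    · exact absurd (sub_eq_zero.1 h0) h1
    · rw [sub_eq_zero.1 h0, Complex.norm_real]
      exact hr
    · rw [sub_eq_zero.1 h0, Complex.norm_real]
      exact ht

lemma split7 : ∀ j, IsSplitting ((im7 j).map b7) (apply s3 (b7 j).1)
    (apply (reversal s3) (b7 j).2) := by
  intro j
  refine ⟨?_, ?_, ?_⟩
  · revert j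
    decide
  · revert j
    decide
  · revert j
    decide

lemma inj7 : Function.Injective b7 := by decide

lemma reach_all : ∀ j, Reach s3 (b7 0) (b7 j) := by
  have h0 : Reach s3 (b7 0) (b7 0) := Reach.base
  have st : ∀ i j : Fin 7, Reach s3 (b7 0) (b7 i) → b7 j ∈ (im7 i).map b7 → Reach s3 (b7 0) (b7 j) :=
    fun i j hi hj => Reach.step _ _ _ hi (split7 i) hj
  have h1 := st 0 1 h0 (by decide)
  have h2 := st 1 2 h1 (by decide)
  have h3 := st 2 3 h2 (by decide)
  have h4 := st 3 4 h3 (by decide)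
  have h5 := st 4 5 h4 (by decide)
  have h6 := st 5 6 h5 (by decide)
  intro j
  fin_cases j
  exacts [h0, h1, h2, h3, h4, h5, h6]

lemma reach_range (P : List (Fin 3) × List (Fin 3)) (h : Reach s3 (b7 0) P) :
    P ∈ Set.range b7 := by
  induction h with
  | base => exact ⟨0, rfl⟩
  | step P Q L _ hL hQ ih =>
    obtain ⟨j, rfl⟩ := ih
    rw [splitting_unique _ _ _ _ hL (split7 j), List.mem_map] at hQ
    obtain ⟨i, -, rfl⟩ := hQ
    exact ⟨i, rfl⟩

lemma sigma7 (u v : ℕ → Fin 3) (hu : IsFixedPoint s3 u) (hv : IsFixedPoint (reversal s3) v)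
    (hu0 : u 0 = 0) (hv0 : v 0 = 0) : IsSigma s3 u v b7 M7 := by
  have e1 : pre u 1 = [0] := by simp [pre, hu0]
  have e2 : pre v 1 = [0] := by simp [pre, hv0]
  refine ⟨hu, hv, 1, ⟨⟨le_refl 1, by rw [e1, e2]⟩, fun n hn => hn.1⟩, inj7, ?_, fun j => ?_⟩
  · rw [e1, e2]
    apply Set.Subset.antisymm
    · rintro P ⟨j, rfl⟩
      exact reach_all j
    · intro P hP
      exact reach_range P hP
  · refine ⟨_, split7 j, ?_⟩
    revert j
    decide

lemma inv7 : N7 * (M7 ^ 3 - M7 ^ 2 - 2 • M7 + 1) = 2 • 1 := by decide +kernel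

/-- **The answer to the question is no**: for the unimodular irreducible Pisot substitution
`a ↦ aba, b ↦ c, c ↦ ab` the polynomial `q` does not divide `det(xI - M_Σ)`. -/
theorem result : ∃ (k : ℕ) (σ : Subst k), IsIrreduciblePisot σ ∧ |(incidence σ).det| = 1 ∧
    p σ ≠ (p σ).reverse ∧ ∃ (u v : ℕ → Fin k) (m : ℕ) (b : Fin m → List (Fin k) × List (Fin k))
      (M : Matrix (Fin m) (Fin m) ℤ), IsSigma σ u v b M ∧ ¬ (p σ).reverse ∣ M.charpoly := by
  obtain ⟨u, hu, hu0⟩ := exists_fixed s3 (by decide) 0 [1, 0] (by decide) rfl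
  obtain ⟨v, hv, hv0⟩ := exists_fixed (reversal s3) (by decide) 0 [1, 0] (by decide) rfl
  refine ⟨3, s3, pisot, by decide, ?_, u, v, 7, b7, M7, sigma7 u v hu hv hu0 hv0, ?_⟩
  · rw [q_eq, p_eq]
    intro h
    have := congrArg (fun f => eval 2 f) h
    norm_num at this
  · rw [q_eq]
    rintro ⟨g, hg⟩
    obtain ⟨l, r, t, hl, -, -, hl0, -⟩ := roots_p
    have hl1 : l ≠ 0 := by linarith
    obtain ⟨y, hy⟩ : ∃ y : ℝ, y = l⁻¹ := ⟨_, rfl⟩
    have hy0 : y ^ 3 - y ^ 2 - 2 * y + 1 = 0 := by
      rw [hy]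
      field_simp
      linear_combination hl0
    have h1 : (aeval y) M7.charpoly = 0 := by
      have h9 : (aeval y) (2 : ℤ[X]) = 2 := by
        rw [show (2 : ℤ[X]) = C 2 from rfl, aeval_C]
        norm_num
      have h10 : (aeval y) (X ^ 3 - X ^ 2 - 2 * X + 1 : ℤ[X]) = y ^ 3 - y ^ 2 - 2 * y + 1 := by
        simp [h9]
      rw [hg, map_mul, h10, hy0, zero_mul]
    have h2 : (Matrix.scalar (Fin 7) y - M7.map (Int.castRingHom ℝ)).det = 0 := by
      have h3 : (M7.map (Int.castRingHom ℝ)).charpoly = M7.charpoly.map (Int.castRingHom ℝ) :=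
        Matrix.charpoly_map M7 (Int.castRingHom ℝ)
      have h4 := Matrix.eval_charpoly (M7.map (Int.castRingHom ℝ)) y
      rw [← h4, h3, eval_map]
      exact h1
    obtain ⟨w, hw, hw0⟩ := Matrix.exists_mulVec_eq_zero_iff.2 h2
    obtain ⟨A, hA⟩ : ∃ A : Matrix (Fin 7) (Fin 7) ℝ, A = M7.map (Int.castRingHom ℝ) := ⟨_, rfl⟩
    obtain ⟨B, hB⟩ : ∃ B : Matrix (Fin 7) (Fin 7) ℝ, B = N7.map (Int.castRingHom ℝ) := ⟨_, rfl⟩
    rw [← hA] at hw0
    have h5 : A.mulVec w = y • w := by
      rw [Matrix.sub_mulVec, sub_eq_zero] at hw0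
      rw [← hw0, Matrix.scalar_apply, ← Matrix.smul_one_eq_diagonal, Matrix.smul_mulVec,
        Matrix.one_mulVec]
    have h6 : B * (A ^ 3 - A ^ 2 - 2 • A + 1) = 2 • 1 := by
      have := congrArg (fun Z : Matrix (Fin 7) (Fin 7) ℤ => (Int.castRingHom ℝ).mapMatrix Z) inv7
      simp only [map_mul, map_add, map_sub, map_pow, map_one, map_nsmul] at this
      rw [hA, hB]
      exact this
    have h7 : (A ^ 3 - A ^ 2 - 2 • A + 1).mulVec w = 0 := by
      have p2 : (A ^ 2).mulVec w = y ^ 2 • w := by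
        rw [pow_two, ← Matrix.mulVec_mulVec, h5, Matrix.mulVec_smul, h5, smul_smul, ← pow_two]
      have p3 : (A ^ 3).mulVec w = y ^ 3 • w := by
        rw [pow_succ, ← Matrix.mulVec_mulVec, h5, Matrix.mulVec_smul, p2, smul_smul]
        congr 1
        ring
      rw [Matrix.add_mulVec, Matrix.sub_mulVec, Matrix.sub_mulVec, p3, p2, Matrix.one_mulVec,
        two_nsmul, Matrix.add_mulVec, h5]
      have : y ^ 3 • w - y ^ 2 • w - (y • w + y • w) + w = (y ^ 3 - y ^ 2 - 2 * y + 1) • w := by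
        module
      rw [this, hy0, zero_smul]
    have h8 : (B * (A ^ 3 - A ^ 2 - 2 • A + 1)).mulVec w = 0 := by
      rw [← Matrix.mulVec_mulVec, h7, Matrix.mulVec_zero]
    rw [h6, two_nsmul, Matrix.add_mulVec, Matrix.one_mulVec] at h8
    apply hw
    funext i
    have := congrFun h8 i
    simp only [Pi.add_apply, Pi.zero_apply] at this ⊢
    linarith

end Pool.Agent.Results.MP_7b40b5_an.ReciprocalDoesNotDivide

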